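import Mathlib

/-!
# Irreducible Brauer characters, and the unipotent ones of `SL₂(q)` and of its centralizers
-/

namespace MP7994d1

open scoped MatrixGroups LinearAlgebra.Projectivization

section General

variable (k H : Type) [Field k] [Group H]

/-- A representation of `H` over `k`. -/
structure KRep where
  V : Type
  grp : AddCommGroup V
  mod : Module k V
  ρ : Representation k H V

attribute [instance] KRep.grp KRep.mod

/-- An irreducible representation of `H` over `k`, of finite degree. -/
structure Irrep extends KRep k H where
  fin : FiniteDimensional k V
  irr : ρ.IsIrreducible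

attribute [instance] Irrep.irr Irrep.fin

variable {k H}

/-- Equivalence of irreducible representations. -/
def Irrep.Equivalent (α β : Irrep k H) : Prop := Nonempty (α.ρ.Equiv β.ρ)

variable (k H)

/-- The equivalence classes of irreducible representations of `H` over `k`. For a finite group
`H` and an algebraically closed field `k` of characteristic `ℓ` these are the irreducible
`ℓ`-modular Brauer characters of `H`. -/
def IBr : Type 1 := Quot (Irrep.Equivalent (k := k) (H := H))

variable {k H}

/-- The degree `φ(1)` of an irreducible Brauer character. -/
noncomputable def IBr.degree (φ : IBr k H) : ℕ :=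
  Quot.lift (fun α : Irrep k H => Module.finrank k α.V)
    (fun _ _ h => by obtain ⟨e⟩ := h; exact e.toLinearEquiv.finrank_eq) φ

/-- `σ` is a quotient of `ρ`. -/
def IsQuotient {V W : Type} [AddCommGroup V] [AddCommGroup W] [Module k V] [Module k W]
    (ρ : Representation k H V) (σ : Representation k H W) : Prop :=
  ∃ f : ρ.IntertwiningMap σ, Function.Surjective f.toLinearMap

/-- `φ` is a composition factor of the representation `τ`: some representation of the class `φ`
is a quotient of a subrepresentation `W` of `τ`. -/
def IsFactor (τ : KRep k H) (φ : IBr k H) : Prop :=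
  ∃ α : Irrep k H, Quot.mk _ α = φ ∧ ∃ W : Subrepresentation τ.ρ,
    IsQuotient W.toRepresentation α.ρ

variable (k H)

/-- The permutation representation of `H` on the vector space with basis the `H`-set `X`. -/
noncomputable def permRep (X : Type) [MulAction H X] : KRep k H :=
  ⟨MonoidAlgebra k X, inferInstance, inferInstance, Representation.ofMulAction k H X⟩

/-- The trivial representation, of degree `1`. -/
def trivRep : KRep k H := ⟨k, inferInstance, inferInstance, Representation.trivial k H k⟩

/-- `n` is the degree of an irreducible Brauer character of `H`. -/
def IsDegree (n : ℕ) : Prop := ∃ φ : IBr k H, φ.degree = n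

end General

variable {F : Type} [Field F]

/-- The centralizer `C(s)` in `SL₂(F)`. -/
def Cent (s : SL(2, F)) : Subgroup SL(2, F) := Subgroup.centralizer {s}

/-- The permutation representation of `C` on the projective line over `F`. -/
noncomputable def lineRep (k : Type) [Field k] (C : Subgroup SL(2, F)) : KRep k C :=
  permRep k C (ℙ F (Fin 2 → F))

open Classical in
/-- A representation over `k` of the centralizer `C` of a semisimple element of `SL₂(F)`, the
composition factors of which are the constituents of the reductions modulo `ℓ` of the unipotent
characters of `C`. If `C = SL₂(F)`, then these are `1` and `St`, and `1 + St` is the permutation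
character on the projective line; otherwise `C` is a torus, and `1` is its only unipotent
character. -/
noncomputable def unipotentRep (k : Type) [Field k] (C : Subgroup SL(2, F)) : KRep k C :=
  if C = ⊤ then lineRep k C else trivRep k C

/-- `μ` is a unipotent irreducible Brauer character of the centralizer `C`. -/
def IsUnipotent (k : Type) [Field k] (C : Subgroup SL(2, F)) (μ : IBr k C) : Prop :=
  IsFactor (unipotentRep k C) μ

/-- `n` is the degree of a unipotent irreducible Brauer character of the centralizer `C`. -/
def IsUnipotentDegree (k : Type) [Field k] (C : Subgroup SL(2, F)) (n : ℕ) : Prop :=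
  ∃ μ : IBr k C, IsUnipotent k C μ ∧ μ.degree = n

/-- `R` is a system of representatives of the conjugacy classes of semisimple elements of order
prime to `ℓ` of `SL₂(F)`. (An element is semisimple if its order is prime to that of `F`.) -/
def IsTransversal [Fintype F] (ℓ : ℕ) (R : Set SL(2, F)) : Prop :=
  (∀ s ∈ R, (orderOf s).Coprime (ℓ * Fintype.card F)) ∧
  ∀ t : SL(2, F), (orderOf t).Coprime (ℓ * Fintype.card F) → ∃! s, s ∈ R ∧ IsConj s t

/-- The pairs `(s, μ)` with `s ∈ R` and `μ` a unipotent irreducible Brauer character
of `C(s)`. -/
structure JPair (k : Type) [Field k] (R : Set SL(2, F)) where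
  s : SL(2, F)
  mem : s ∈ R
  μ : IBr k (Cent s)
  unip : IsUnipotent k (Cent s) μ

/-- The number `|SL₂(F) : C(s)|_{p'} μ(1)`. -/
noncomputable def JPair.deg {k : Type} [Field k] {R : Set SL(2, F)} (x : JPair k R) : ℕ :=
  ordCompl[ringChar F] (Cent x.s).index * x.μ.degree

/-- There is a bijection `Φ` from the pairs `(s, μ)` to the irreducible Brauer characters of
`PGL₂(F)` with `Φ(s, μ)(1) = |SL₂(F) : C(s)|_{p'} μ(1)` for all `(s, μ)`. -/
def HasJordanBijection (k : Type) [Field k] (R : Set SL(2, F)) : Prop :=
  ∃ Φ : JPair k R ≃ IBr k PGL(2, F), ∀ x, (Φ x).degree = x.deg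

end MP7994d1
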