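import Pool.Agent.Work.MP_7994d1_al.Eigen

namespace MP7994d1

open scoped MonoidAlgebra MatrixGroups

variable {k : Type} [Field k] [IsAlgClosed k] {F : Type} [Field F]

/-- The upper unitriangular matrices. -/
def uSL : Multiplicative F →* SL(2, F) where
  toFun x := ⟨!![1, Multiplicative.toAdd x; 0, 1], by simp⟩
  map_one' := by ext i j; fin_cases i <;> fin_cases j <;> simp
  map_mul' x y := by
    ext i j
    fin_cases i <;> fin_cases j <;> simp [Matrix.SpecialLinearGroup.coe_mul, Matrix.mul_apply,
      Fin.sum_univ_two, add_comm]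

/-- The lower unitriangular matrices. -/
def lSL (y : F) : SL(2, F) := ⟨!![1, 0; y, 1], by simp⟩

/-- The Weyl element. -/
def wSL : SL(2, F) := ⟨!![0, 1; -1, 0], by simp⟩

theorem lSL_eq (y : F) : lSL y = wSL * uSL (Multiplicative.ofAdd (-y)) * wSL⁻¹ := by
  rw [eq_mul_inv_iff_mul_eq]
  ext i j
  fin_cases i <;> fin_cases j <;>
    simp [lSL, wSL, uSL, Matrix.mul_apply, Fin.sum_univ_two]

/-- The diagonal matrices `diag(a, 1)`. -/
def tGL : Fˣ →* GL (Fin 2) F where
  toFun a := Matrix.GeneralLinearGroup.mkOfDetNeZero !![(a : F), 0; 0, 1] (by simp)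
  map_one' := by ext i j; fin_cases i <;> fin_cases j <;> simp
  map_mul' a b := by
    ext i j
    fin_cases i <;> fin_cases j <;> simp [Matrix.mul_apply, Fin.sum_univ_two]

/-- The upper unitriangular matrices in `GL₂`. -/
def uGL : Multiplicative F →* GL (Fin 2) F := Matrix.SpecialLinearGroup.toGL.comp uSL

@[simp] theorem uGL_coe (x : Multiplicative F) :
    (uGL x : Matrix (Fin 2) (Fin 2) F) = !![1, Multiplicative.toAdd x; 0, 1] := rfl

@[simp] theorem tGL_coe (a : Fˣ) :
    (tGL a : Matrix (Fin 2) (Fin 2) F) = !![(a : F), 0; 0, 1] := rfl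

theorem uGL_mul_tGL (a : Fˣ) (x : F) : uGL (Multiplicative.ofAdd x) * tGL a =
    tGL a * uGL (Multiplicative.ofAdd ((a⁻¹ : Fˣ) * x)) := by
  ext i j
  fin_cases i <;> fin_cases j <;> simp [Matrix.mul_apply, Fin.sum_univ_two]

section

variable {G : Type} [Group G] {V : Type} [AddCommGroup V] [Module k V]

/-- If the unitriangular matrices and the scalars are in the kernel, all matrices act as some
`diag(a, 1)`. -/
theorem exists_tGL (K : Subgroup (GL (Fin 2) F)) [K.Normal]
    (hu : ∀ x, (uGL x : GL (Fin 2) F) ∈ K)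
    (hs : ∀ c : Fˣ, Matrix.GeneralLinearGroup.scalar (Fin 2) c ∈ K) (g : GL (Fin 2) F) :
    ∃ a : Fˣ, g * (tGL a)⁻¹ ∈ K := by
  have hl : ∀ y : F, Matrix.SpecialLinearGroup.toGL (lSL y) ∈ K := by
    intro y
    rw [lSL_eq, map_mul, map_mul, map_inv]
    exact Subgroup.Normal.conj_mem inferInstance _ (hu _) _
  -- upper triangular matrices
  have h1 : ∀ g : GL (Fin 2) F, g 1 0 = 0 → ∃ a : Fˣ, g * (tGL a)⁻¹ ∈ K := by
    intro g hg
    have hdet : g 0 0 * g 1 1 ≠ 0 := by
      have := g.det_ne_zero
      rw [Matrix.det_fin_two] at this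
      simpa [hg] using this
    have h0 : g 0 0 ≠ 0 := left_ne_zero_of_mul hdet
    have h11 : g 1 1 ≠ 0 := right_ne_zero_of_mul hdet
    refine ⟨Units.mk0 (g 0 0 / g 1 1) (div_ne_zero h0 h11), ?_⟩
    have : g * (tGL (Units.mk0 (g 0 0 / g 1 1) (div_ne_zero h0 h11)))⁻¹ =
        uGL (Multiplicative.ofAdd (g 0 1 / g 1 1)) *
          Matrix.GeneralLinearGroup.scalar (Fin 2) (Units.mk0 (g 1 1) h11) := by
      rw [mul_inv_eq_iff_eq_mul]
      ext i j
      fin_cases i <;> fin_cases j <;>
        simp [Matrix.mul_apply, Fin.sum_univ_two, hg, h11, mul_div_cancel₀]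
    rw [this]
    exact K.mul_mem (hu _) (hs _)
  have h2 : ∀ g : GL (Fin 2) F, g 0 0 ≠ 0 → ∃ a : Fˣ, g * (tGL a)⁻¹ ∈ K := by
    intro g hg
    obtain ⟨a, ha⟩ := h1 (Matrix.SpecialLinearGroup.toGL (lSL (-(g 1 0) / g 0 0)) * g) (by
      simp [lSL, Matrix.mul_apply, Fin.sum_univ_two]
      field_simp
      ring)
    refine ⟨a, ?_⟩
    rw [mul_assoc] at ha
    exact (K.mul_mem_cancel_left (hl _)).1 ha
  by_cases hg : g 0 0 = 0
  · have h10 : g 1 0 ≠ 0 := by
      intro h
      have := g.det_ne_zero
      rw [Matrix.det_fin_two] at this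
      simp [hg, h] at this
    obtain ⟨a, ha⟩ := h2 (uGL (Multiplicative.ofAdd 1) * g) (by
      simpa [Matrix.mul_apply, Fin.sum_univ_two, hg] using h10)
    refine ⟨a, ?_⟩
    rw [mul_assoc] at ha
    exact (K.mul_mem_cancel_left (hu _)).1 ha
  · exact h2 g hg

end

/-- A simple module of `PGL₂(F)` over an algebraically closed field of characteristic not that of
`F` has dimension `1` or at least `q - 1`. -/
theorem finrank_PGL [Fintype F] (hF : (Fintype.card F : k) ≠ 0) (M : Type) [AddCommGroup M]
    [Module k M] [Module k[PGL(2, F)] M] [IsScalarTower k k[PGL(2, F)] M]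
    [IsSimpleModule k[PGL(2, F)] M] [FiniteDimensional k M] :
    Module.finrank k M = 1 ∨ Fintype.card F - 1 ≤ Module.finrank k M := by
  classical
  set ρ : Representation k PGL(2, F) M := Representation.ofModule' M with hρ
  have hρa : ∀ g (m : M), ρ g m = MonoidAlgebra.single g (1 : k) • m := fun _ _ => rfl
  set σ : Representation k (GL (Fin 2) F) M := ρ.comp Matrix.ProjGenLinGroup.mk with hσ
  by_cases hnt : ∃ (x : Multiplicative F) (v : M), σ (uGL x) v ≠ v
  · right
    have := card_le_finrank σ hF uGL (fun a : Fˣ => tGL a) (fun a : Fˣ => ((a⁻¹ : Fˣ) : F))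
      (fun a b h => inv_injective (Units.ext h)) (fun a x => uGL_mul_tGL a x) hnt
    rwa [Fintype.card_units] at this
  · left
    push Not at hnt
    have hK : ∀ g : GL (Fin 2) F, ∃ a : Fˣ, g * (tGL a)⁻¹ ∈ MonoidHom.ker σ := by
      apply exists_tGL
      · intro x
        rw [MonoidHom.mem_ker]
        ext v
        exact hnt x v
      · intro c
        rw [MonoidHom.mem_ker, hσ, MonoidHom.comp_apply, Matrix.ProjGenLinGroup.mk_scalar, map_one]
    have : Nontrivial M := IsSimpleModule.nontrivial k[PGL(2, F)] M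
    obtain ⟨v, ψ, hv, hψ⟩ := exists_common_eigenvector (σ.comp tGL : Representation k Fˣ M)
    have hstab : ∀ (g : PGL(2, F)), ∃ c : k, ρ g v = c • v := by
      intro g
      obtain ⟨g, rfl⟩ := Matrix.ProjGenLinGroup.mk_surjective g
      obtain ⟨a, ha⟩ := hK g
      refine ⟨ψ a, ?_⟩
      rw [← hψ a]
      show σ g v = σ (tGL a) v
      have h1 : g = (g * (tGL a)⁻¹) * tGL a := by group
      rw [h1, map_mul, MonoidHom.mem_ker.1 ha, one_mul]
    let S : Submodule k[PGL(2, F)] M :=
      { Submodule.span k {v} with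
        smul_mem' := by
          intro r m hm
          induction r using MonoidAlgebra.induction_linear with
          | zero => rw [zero_smul]; exact Submodule.zero_mem _
          | add x y hx hy => rw [add_smul]; exact Submodule.add_mem _ hx hy
          | single g a =>
            obtain ⟨b, rfl⟩ := Submodule.mem_span_singleton.1 hm
            obtain ⟨c, hc⟩ := hstab g
            have h2 : MonoidAlgebra.single g a • b • v = (a * b * c) • v := by
              have h3 : MonoidAlgebra.single g a = a • MonoidAlgebra.single g (1 : k) := by simp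
              rw [h3, smul_assoc, ← hρa, map_smul, hc, smul_smul, smul_smul]
            rw [h2]
            exact Submodule.smul_mem _ _ (Submodule.mem_span_singleton_self v) }
    obtain hS | hS := eq_bot_or_eq_top S
    · exact absurd (hS.le (Submodule.mem_span_singleton_self v)) hv
    · rw [finrank_eq_one_iff_of_nonzero v hv, ← top_le_iff]
      intro m _
      have : m ∈ S := by rw [hS]; trivial
      exact this

end MP7994d1
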