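import Pool.Agent.Work.MP_7994d1_al.SLPart

/-! A composition factor of small degree of the permutation module of `SL₂(q)`. -/

namespace MP7994d1

open scoped MonoidAlgebra LinearAlgebra.Projectivization MatrixGroups

section Transport

variable (k H : Type) [Field k] [Group H]

/-- The permutation representation of `H` on the functions `X → k`. -/
def funRep (X : Type) [MulAction H X] : Representation k H (X → k) where
  toFun h := LinearMap.funLeft k k (fun x => h⁻¹ • x)
  map_one' := by ext; simp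
  map_mul' g h := by ext; simp [mul_smul]

theorem isFactor_permRep (X : Type) [Finite X] [MulAction H X] (α : Irrep k H)
    (W : Submodule k (X → k)) (f : (X → k) →ₗ[k] α.V)
    (hW : ∀ h, ∀ w ∈ W, funRep k H X h w ∈ W ∧ f (funRep k H X h w) = α.ρ h (f w))
    (hf : ∀ y, ∃ w ∈ W, f w = y) : IsFactor (permRep k H X) (Quot.mk _ α) := by
  classical
  let e : MonoidAlgebra k X ≃ₗ[k] (X → k) :=
    (MonoidAlgebra.coeffLinearEquiv k).trans (Finsupp.linearEquivFunOnFinite k k X)
  have he : ∀ (h : H) (v : MonoidAlgebra k X), e (Representation.ofMulAction k H X h v) =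
      funRep k H X h (e v) := by
    intro h v
    funext x
    exact Representation.coeff_ofMulAction h v x
  refine ⟨α, rfl, ⟨W.comap e.toLinearMap, fun h v hv => ?_⟩, ⟨⟨?_, ?_⟩, ?_⟩⟩
  · show e (Representation.ofMulAction k H X h v) ∈ W
    rw [he]
    exact (hW h _ hv).1
  · exact (f ∘ₗ e.toLinearMap) ∘ₗ (W.comap e.toLinearMap).subtype
  · intro h
    apply LinearMap.ext
    rintro ⟨v, hv⟩
    show f (e (Representation.ofMulAction k H X h v)) = α.ρ h (f (e v))
    rw [he]
    exact (hW h _ hv).2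
  · intro y
    obtain ⟨w, hw, hwy⟩ := hf y
    refine ⟨⟨e.symm w, ?_⟩, ?_⟩
    · show e (e.symm w) ∈ W
      rwa [LinearEquiv.apply_symm_apply]
    · show f (e (e.symm w)) = y
      rwa [LinearEquiv.apply_symm_apply]

end Transport

variable {k : Type} [Field k] {F : Type} [Field F] [Fintype F] [DecidableEq F]

theorem code_stable [CharP k 2] (θ : k) (H : Subgroup SL(2, F)) (h : H)
    {f : ℙ F (Fin 2 → F) → k} (hf : f ∈ code θ) :
    funRep k H (ℙ F (Fin 2 → F)) h f ∈ code θ := by
  induction hf using Submodule.span_induction with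
  | mem f hf =>
    obtain ⟨v, w, hv, hw, rfl⟩ := hf
    have h1 : funRep k H (ℙ F (Fin 2 → F)) h (fv θ v w) =
        fv θ ((h : SL(2, F)) • v) ((h : SL(2, F)) • w) := by
      funext Q
      exact fv_SL θ (h : SL(2, F)) hv hw Q
    rw [h1]
    exact Submodule.subset_span ⟨_, _, (smul_ne_zero_iff_ne _).2 hv, (smul_ne_zero_iff_ne _).2 hw,
      rfl⟩
  | zero => rw [map_zero]; exact Submodule.zero_mem _
  | add f g _ _ h1 h2 => rw [map_add]; exact Submodule.add_mem _ h1 h2
  | smul c f _ h1 => rw [map_smul]; exact Submodule.smul_mem _ _ h1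

/-- The code as a submodule over the group algebra. -/
noncomputable def codeSub [CharP k 2] (θ : k) (H : Subgroup SL(2, F)) :
    Submodule k[H] (Representation.asModule (funRep k H (ℙ F (Fin 2 → F)))) :=
  Subrepresentation.asSubmodule ⟨code θ, fun h _ hf => code_stable θ H h hf⟩

theorem finrank_codeSub [CharP k 2] (θ : k) (H : Subgroup SL(2, F)) :
    Module.finrank k (codeSub θ H) = Module.finrank k (code θ : Submodule k (ℙ F (Fin 2 → F) → k)) :=
  rfl

omit [Fintype F] [DecidableEq F] in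
theorem vec_ne_zero (a : F) : (![a, 1] : Fin 2 → F) ≠ 0 := by
  rw [ne_zero_iff']; right; simp

theorem fv_value [CharP k 2] (θ : k) {a : F} (ha : a ≠ 0) :
    fv θ ![1, 0] ![0, 1] (Projectivization.mk F ![a, 1] (vec_ne_zero a)) =
      (((1 + quadraticChar F (-a)) / 2 : ℤ) : k) := by
  have h1 : (![1, 0] : Fin 2 → F) ≠ 0 := by rw [ne_zero_iff']; left; simp
  have h2 : (![0, 1] : Fin 2 → F) ≠ 0 := by rw [ne_zero_iff']; right; simp
  have d1 : dt (![1, 0] : Fin 2 → F) ![a, 1] = 1 := by simp [dt]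
  have d2 : dt (![0, 1] : Fin 2 → F) ![a, 1] = -a := by simp [dt]
  rw [fv_eq θ h1 h2 (vec_ne_zero a)]
  have e1 : yy ![1, 0] ![0, 1] ![a, 1] = 0 := by
    simp [yy, bb, d1, d2, ha]
  have e2 : xx ![1, 0] ![0, 1] ![a, 1] = (1 + quadraticChar F (-a)) / 2 := by
    simp [xx, e1, aa, d1, d2]
  rw [e1, e2]
  simp

omit [Fintype F] [DecidableEq F] in
theorem uSL_inv_smul (y a : F) :
    (uSL (Multiplicative.ofAdd y))⁻¹ • Projectivization.mk F ![a, 1] (vec_ne_zero a) =
      Projectivization.mk F ![a - y, 1] (vec_ne_zero (a - y)) := by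
  rw [inv_smul_eq_iff, Projectivization.smul_mk]
  congr 1
  show _ = (uSL (Multiplicative.ofAdd y)).1.mulVec _
  funext i
  fin_cases i <;> simp [uSL, Matrix.mulVec, dotProduct, Fin.sum_univ_two]

theorem code_nontrivial [CharP k 2] (hF : ringChar F ≠ 2) (θ : k) (H : Subgroup SL(2, F))
    (hH : ∀ g, g ∈ H) : ∃ x : Multiplicative F, ∃ f ∈ codeSub θ H,
      MonoidAlgebra.single (⟨uSL x, hH _⟩ : H) (1 : k) • f ≠ f := by
  have h1 : (![1, 0] : Fin 2 → F) ≠ 0 := by rw [ne_zero_iff']; left; simp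
  have h2 : (![0, 1] : Fin 2 → F) ≠ 0 := by rw [ne_zero_iff']; right; simp
  obtain ⟨b, hb⟩ := quadraticChar_exists_neg_one hF
  have hb0 : b ≠ 0 := by
    rintro rfl
    simp at hb
  have hmain : ∃ x : Multiplicative F, funRep k H (ℙ F (Fin 2 → F)) ⟨uSL x, hH _⟩
      (fv θ ![1, 0] ![0, 1]) ≠ fv θ ![1, 0] ![0, 1] := by
    refine ⟨Multiplicative.ofAdd (-1 - -b), ?_⟩
    intro hcon
    have h3 := congrFun hcon (Projectivization.mk F ![-1, 1] (vec_ne_zero _))
    have h4 : fv θ ![1, 0] ![0, 1]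
        ((uSL (Multiplicative.ofAdd (-1 - -b)))⁻¹ •
          Projectivization.mk F ![-1, 1] (vec_ne_zero _)) =
        fv θ ![1, 0] ![0, 1] (Projectivization.mk F ![-1, 1] (vec_ne_zero _)) := h3
    have h5 : (-1 : F) - (-1 - -b) = -b := by ring
    have h6 : ∀ a : F, a = -b → fv θ ![1, 0] ![0, 1] (Projectivization.mk F ![a, 1]
        (vec_ne_zero a)) = 0 := by
      rintro a rfl
      rw [fv_value θ (neg_ne_zero.2 hb0), neg_neg, hb]
      simp
    rw [uSL_inv_smul, h6 _ h5, fv_value θ (neg_ne_zero.2 one_ne_zero), neg_neg, map_one] at h4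
    simp at h4
  obtain ⟨x, hx⟩ := hmain
  have hmem : (fv θ ![1, 0] ![0, 1] : ℙ F (Fin 2 → F) → k) ∈ code θ :=
    Submodule.subset_span ⟨_, _, h1, h2, rfl⟩
  refine ⟨x, fv θ ![1, 0] ![0, 1], hmem, ?_⟩
  intro hcon
  apply hx
  have key := Representation.single_smul (ρ := funRep k H (ℙ F (Fin 2 → F))) (1 : k)
    (⟨uSL x, hH _⟩ : H) (fv θ ![1, 0] ![0, 1])
  have h3 : (1 : k) • funRep k H (ℙ F (Fin 2 → F)) (⟨uSL x, hH _⟩ : H)
      (fv θ ![1, 0] ![0, 1]) = fv θ ![1, 0] ![0, 1] := key.symm.trans hcon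
  rwa [one_smul] at h3

omit [DecidableEq F] in
theorem card_proj [Fintype (ℙ F (Fin 2 → F))] :
    Fintype.card (ℙ F (Fin 2 → F)) = Fintype.card F + 1 := by
  have h := Projectivization.card_of_finrank F (Fin 2 → F) (n := 2) (by simp)
  rw [Nat.card_eq_fintype_card, Nat.card_eq_fintype_card, Finset.sum_range_succ,
    Finset.sum_range_one, pow_zero, pow_one] at h
  omega

/-- The diagonal matrices. -/
def dSL (a : Fˣ) : SL(2, F) := ⟨!![(a : F), 0; 0, (a⁻¹ : Fˣ)], by simp⟩

omit [Fintype F] [DecidableEq F] in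
theorem uSL_mul_dSL (a : Fˣ) (x : F) : uSL (Multiplicative.ofAdd x) * dSL a =
    dSL a * uSL (Multiplicative.ofAdd (((a⁻¹ : Fˣ) : F) ^ 2 * x)) := by
  ext i j
  fin_cases i <;> fin_cases j <;> simp [uSL, dSL, Matrix.mul_apply, Fin.sum_univ_two]
  field_simp

omit [DecidableEq F] in
theorem exists_sq_ne_one (h3 : 3 < Fintype.card F) : ∃ a : Fˣ, ((a⁻¹ : Fˣ) : F) ^ 2 ≠ 1 := by
  classical
  by_contra hcon
  push Not at hcon
  have h1 : (Finset.univ : Finset Fˣ) ⊆ {1, -1} := by
    intro a _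
    have h2 := hcon a⁻¹
    rw [inv_inv] at h2
    rcases (show (a : F) = 1 ∨ (a : F) = -1 from by
      have h5 : ((a : F) - 1) * ((a : F) + 1) = 0 := by linear_combination h2
      rcases mul_eq_zero.1 h5 with h | h
      · exact Or.inl (sub_eq_zero.1 h)
      · exact Or.inr (eq_neg_of_add_eq_zero_left h)) with h | h
    · simp [Units.ext_iff, h]
    · simp [Units.ext_iff, h]
  have h2 := Finset.card_le_card h1
  rw [Finset.card_univ, Fintype.card_units] at h2
  have h4 : ({1, -1} : Finset Fˣ).card ≤ 2 := Finset.card_le_two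
  omega

theorem exists_unipotent_factor [IsAlgClosed k] [CharP k 2] (hodd : Odd (Fintype.card F))
    (h3 : 3 < Fintype.card F) (H : Subgroup SL(2, F)) (hH : ∀ g, g ∈ H) :
    ∃ φ : IBr k H, IsFactor (lineRep k H) φ ∧ 1 < φ.degree ∧ φ.degree < Fintype.card F - 1 := by
  have : Fintype (ℙ F (Fin 2 → F)) := Fintype.ofFinite _
  have hF2 : ringChar F ≠ 2 := by
    intro h
    have := FiniteField.even_card_of_char_two h
    obtain ⟨r, hr⟩ := hodd
    omega
  have hFk : (Fintype.card F : k) ≠ 0 := by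
    intro h
    rw [CharP.cast_eq_zero_iff k 2] at h
    obtain ⟨r, hr⟩ := hodd
    omega
  obtain ⟨m, hm⟩ := exists_m hF2
  -- the root θ
  obtain ⟨θ, hθ⟩ : ∃ θ : k, θ * θ = θ + m := by
    obtain ⟨θ, hθ⟩ := IsAlgClosed.exists_root
      (Polynomial.X ^ 2 - Polynomial.X - Polynomial.C (m : k)) (by
        have : (Polynomial.X ^ 2 - Polynomial.X - Polynomial.C (m : k)).degree = 2 := by
          compute_degree!
        rw [this]; decide)
    refine ⟨θ, ?_⟩
    simp only [Polynomial.IsRoot, Polynomial.eval_sub, Polynomial.eval_pow, Polynomial.eval_X,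
      Polynomial.eval_C] at hθ
    linear_combination hθ
  have hsum := finrank_add_le (code θ : Submodule k (ℙ F (Fin 2 → F) → k)) (code (dual F θ))
    (code_orth hF2 hm hθ)
  rw [card_proj] at hsum
  obtain ⟨θ', hθ'⟩ : ∃ θ' : k,
      Module.finrank k (code θ' : Submodule k (ℙ F (Fin 2 → F) → k)) < Fintype.card F - 1 := by
    by_contra hcon
    push Not at hcon
    have h1 := hcon θ
    have h2 := hcon (dual F θ)
    obtain ⟨r, hr⟩ := hodd
    omega
  let u : Multiplicative F →* H :=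
    { toFun := fun x => ⟨uSL x, hH _⟩
      map_one' := Subtype.ext (map_one _)
      map_mul' := fun x y => Subtype.ext (map_mul _ _ _) }
  obtain ⟨a, ha⟩ := exists_sq_ne_one h3
  obtain ⟨α, h1, h2, W, f, hW, hf⟩ := exists_simple_factor hFk u
    (fun i => if i then ⟨dSL a, hH _⟩ else 1) (fun i => if i then ((a⁻¹ : Fˣ) : F) ^ 2 else 1)
    (by intro i j hij; cases i <;> cases j <;> simp_all)
    (by
      intro i x
      cases i
      · simp
      · exact Subtype.ext (uSL_mul_dSL a x))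
    (Representation.asModule (funRep k H (ℙ F (Fin 2 → F)))) (codeSub θ' H)
    (code_nontrivial hF2 θ' H hH)
  rw [finrank_codeSub] at h2
  have key : ∀ (h : H) (w : Representation.asModule (funRep k H (ℙ F (Fin 2 → F)))),
      (MonoidAlgebra.single h (1 : k) • w :
        Representation.asModule (funRep k H (ℙ F (Fin 2 → F)))) =
      funRep k H (ℙ F (Fin 2 → F)) h w := by
    intro h w
    have h5 := Representation.single_smul (ρ := funRep k H (ℙ F (Fin 2 → F))) (1 : k) h w
    rw [one_smul] at h5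
    exact h5
  simp only [key] at hW
  exact ⟨Quot.mk _ α, isFactor_permRep k H _ α W f hW hf, h1, lt_of_le_of_lt h2 hθ'⟩

end MP7994d1
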