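import Pool.Agent.Work.MP_7994d1_al.Paley2

/-! The generalized quadratic residue codes over `k`, `char k = 2`. -/

namespace MP7994d1

open scoped LinearAlgebra.Projectivization MatrixGroups

variable {F : Type} [Field F] [Fintype F] [DecidableEq F]

def yy (v w q : Fin 2 → F) : ℤ := bb v q + bb w q

def xx (v w q : Fin 2 → F) : ℤ := ((aa v q + aa w q) - yy v w q) / 2

theorem two_xx {v w q : Fin 2 → F} (hv : v ≠ 0) (hw : w ≠ 0) (hq : q ≠ 0) :
    2 * xx v w q = (aa v q + aa w q) - yy v w q := by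
  have h1 := aa_add_bb_odd hv hq
  have h2 := aa_add_bb_odd hw hq
  unfold xx yy
  obtain ⟨a, ha⟩ := h1
  obtain ⟨b, hb⟩ := h2
  omega

theorem xx_smul {v w q : Fin 2 → F} (hv : v ≠ 0) (hw : w ≠ 0) (hq : q ≠ 0) {c : F} (hc : c ≠ 0) :
    xx v w (c • q) = quadraticChar F c * xx v w q := by
  have h1 := two_xx hv hw hq
  have h2 := two_xx hv hw (smul_ne_zero hc hq)
  unfold yy at h1 h2
  rw [aa_smul, aa_smul, bb_smul hq hc, bb_smul hq hc] at h2
  have h3 : 2 * xx v w (c • q) = 2 * (quadraticChar F c * xx v w q) := by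
    rw [h2]
    linear_combination (-(quadraticChar F c)) * h1
  linarith

theorem yy_smul {v w q : Fin 2 → F} (hq : q ≠ 0) {c : F} (hc : c ≠ 0) :
    yy v w (c • q) = quadraticChar F c * yy v w q := by
  rw [yy, yy, bb_smul hq hc, bb_smul hq hc, mul_add]

variable {k : Type} [Field k]

/-- The vectors spanning the code. -/
noncomputable def fv (θ : k) (v w : Fin 2 → F) : ℙ F (Fin 2 → F) → k := fun Q =>
  (xx v w Q.rep : k) + (yy v w Q.rep : k) * θ

theorem chi_cast [CharP k 2] {c : F} (hc : c ≠ 0) : ((quadraticChar F c : ℤ) : k) = 1 := by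
  rcases quadraticChar_dichotomy hc with h | h <;> rw [h]
  · simp
  · push_cast
    rw [neg_eq_iff_add_eq_zero, one_add_one_eq_two]
    exact CharTwo.two_eq_zero

theorem fv_eq [CharP k 2] (θ : k) {v w : Fin 2 → F} (hv : v ≠ 0) (hw : w ≠ 0)
    {q : Fin 2 → F} (hq : q ≠ 0) :
    fv θ v w (Projectivization.mk F q hq) = (xx v w q : k) + (yy v w q : k) * θ := by
  have h3 : Projectivization.mk F (Projectivization.mk F q hq).rep
      (Projectivization.mk F q hq).rep_nonzero = Projectivization.mk F q hq :=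
    Projectivization.mk_rep _
  rw [Projectivization.mk_eq_mk_iff] at h3
  obtain ⟨c, hc⟩ := h3
  rw [fv, ← hc, Units.smul_def, xx_smul hv hw hq c.ne_zero, yy_smul hq c.ne_zero]
  push_cast
  rw [chi_cast c.ne_zero, one_mul, one_mul]

omit [Fintype F] [DecidableEq F] in
theorem dt_SL (g : SL(2, F)) (v w : Fin 2 → F) : dt (g • v) (g • w) = dt v w := by
  have hdet := g.det_coe
  rw [Matrix.det_fin_two] at hdet
  show dt (g.1.mulVec v) (g.1.mulVec w) = dt v w
  simp only [dt, Matrix.mulVec, dotProduct, Fin.sum_univ_two]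
  linear_combination (v 0 * w 1 - v 1 * w 0) * hdet

omit [Fintype F] in
theorem ratio_SL (g : SL(2, F)) {v q : Fin 2 → F} (hq : q ≠ 0) (h : dt v q = 0) :
    ratio (g • v) (g • q) = ratio v q := by
  have h1 := eq_ratio_smul hq h
  have h2 : g • v = ratio v q • (g • q) := by
    conv_lhs => rw [h1]
    rw [smul_comm]
  rw [h2, ratio_smul ((smul_ne_zero_iff_ne g).2 hq)]

theorem aa_SL (g : SL(2, F)) (v q : Fin 2 → F) : aa (g • v) (g • q) = aa v q := by
  rw [aa, aa, dt_SL]

theorem bb_SL (g : SL(2, F)) {v q : Fin 2 → F} (hq : q ≠ 0) : bb (g • v) (g • q) = bb v q := by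
  unfold bb
  rw [dt_SL]
  split_ifs with h
  · rw [ratio_SL g hq h]
  · rfl

theorem fv_SL [CharP k 2] (θ : k) (g : SL(2, F)) {v w : Fin 2 → F} (hv : v ≠ 0) (hw : w ≠ 0)
    (Q : ℙ F (Fin 2 → F)) : fv θ v w (g⁻¹ • Q) = fv θ (g • v) (g • w) Q := by
  induction Q using Projectivization.ind with
  | _ q hq =>
    rw [Projectivization.smul_mk, fv_eq θ hv hw,
      fv_eq θ ((smul_ne_zero_iff_ne g).2 hv) ((smul_ne_zero_iff_ne g).2 hw)]
    have hq' : g⁻¹ • q ≠ 0 := (smul_ne_zero_iff_ne g⁻¹).2 hq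
    have e : g • (g⁻¹ • q) = q := smul_inv_smul g q
    have h1 : yy (g • v) (g • w) q = yy v w (g⁻¹ • q) := by
      unfold yy
      conv_lhs => rw [← e, bb_SL g hq', bb_SL g hq']
    have h2 : xx (g • v) (g • w) q = xx v w (g⁻¹ • q) := by
      unfold xx
      rw [h1]
      conv_lhs => rw [← e, aa_SL, aa_SL]
      rw [e]
    rw [h1, h2]

/-- The relation between `q` and the sign `ε = χ(-1)`. -/
theorem exists_m (hF : ringChar F ≠ 2) :
    ∃ m : ℤ, quadraticChar F (-1) * (Fintype.card F : ℤ) = 1 + 4 * m := by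
  have hodd := FiniteField.odd_card_of_char_ne_two hF
  rw [quadraticChar_neg_one hF]
  have h4 : Fintype.card F % 4 = 1 ∨ Fintype.card F % 4 = 3 := by
    omega
  rcases h4 with h | h
  · rw [ZMod.χ₄_nat_one_mod_four h]
    exact ⟨(Fintype.card F : ℤ) / 4, by omega⟩
  · rw [ZMod.χ₄_nat_three_mod_four h]
    exact ⟨-((Fintype.card F : ℤ) / 4) - 1, by omega⟩

/-- The dual parameter. -/
noncomputable def dual (F : Type) [Field F] [Fintype F] [DecidableEq F] (θ : k) : k :=
  if quadraticChar F (-1) = 1 then 1 - θ else θ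

theorem fv_orth [Fintype (ℙ F (Fin 2 → F))] (hF : ringChar F ≠ 2) {m : ℤ}
    (hm : quadraticChar F (-1) * (Fintype.card F : ℤ) = 1 + 4 * m) {θ : k}
    (hθ : θ * θ = θ + m) {v w v' w' : Fin 2 → F} (hv : v ≠ 0) (hw : w ≠ 0) (hv' : v' ≠ 0)
    (hw' : w' ≠ 0) : ∑ Q, fv θ v w Q * fv (dual F θ) v' w' Q = 0 := by
  set S : ℤ := ∑ Q : ℙ F (Fin 2 → F), yy v w Q.rep * yy v' w' Q.rep with hS
  set SX : ℤ := ∑ Q : ℙ F (Fin 2 → F), xx v w Q.rep * xx v' w' Q.rep with hSX
  set SXY : ℤ := ∑ Q : ℙ F (Fin 2 → F), xx v w Q.rep * yy v' w' Q.rep with hSXY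
  set SYX : ℤ := ∑ Q : ℙ F (Fin 2 → F), yy v w Q.rep * xx v' w' Q.rep with hSYX
  set a : ℤ := ∑ Q : ℙ F (Fin 2 → F), (aa v Q.rep + aa w Q.rep) * yy v' w' Q.rep with ha
  set b : ℤ := ∑ Q : ℙ F (Fin 2 → F), yy v w Q.rep * (aa v' Q.rep + aa w' Q.rep) with hb
  set A : ℤ := ∑ Q : ℙ F (Fin 2 → F), (aa v Q.rep + aa w Q.rep) * (aa v' Q.rep + aa w' Q.rep)
    with hA
  have eA : A = Fintype.card F * S := by
    have e1 : A = (∑ Q : ℙ F (Fin 2 → F), aa v Q.rep * aa v' Q.rep) +
        (∑ Q : ℙ F (Fin 2 → F), aa v Q.rep * aa w' Q.rep) +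
        (∑ Q : ℙ F (Fin 2 → F), aa w Q.rep * aa v' Q.rep) +
        (∑ Q : ℙ F (Fin 2 → F), aa w Q.rep * aa w' Q.rep) := by
      rw [hA, ← Finset.sum_add_distrib, ← Finset.sum_add_distrib, ← Finset.sum_add_distrib]
      exact Finset.sum_congr rfl fun Q _ => by ring
    have e2 : S = (∑ Q : ℙ F (Fin 2 → F), bb v Q.rep * bb v' Q.rep) +
        (∑ Q : ℙ F (Fin 2 → F), bb v Q.rep * bb w' Q.rep) +
        (∑ Q : ℙ F (Fin 2 → F), bb w Q.rep * bb v' Q.rep) +
        (∑ Q : ℙ F (Fin 2 → F), bb w Q.rep * bb w' Q.rep) := by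
      rw [hS, ← Finset.sum_add_distrib, ← Finset.sum_add_distrib, ← Finset.sum_add_distrib]
      exact Finset.sum_congr rfl fun Q _ => by simp only [yy]; ring
    rw [e1, e2, sum_aa_aa hF hv hv', sum_aa_aa hF hv hw', sum_aa_aa hF hw hv',
      sum_aa_aa hF hw hw']
    ring
  have ea : a = quadraticChar F (dt v v') + quadraticChar F (dt v w') +
      quadraticChar F (dt w v') + quadraticChar F (dt w w') := by
    rw [← sum_aa_bb v hv', ← sum_aa_bb v hw', ← sum_aa_bb w hv', ← sum_aa_bb w hw', ha,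
      ← Finset.sum_add_distrib, ← Finset.sum_add_distrib, ← Finset.sum_add_distrib]
    exact Finset.sum_congr rfl fun Q _ => by simp only [yy]; ring
  have eb : b = quadraticChar F (dt v' v) + quadraticChar F (dt w' v) +
      quadraticChar F (dt v' w) + quadraticChar F (dt w' w) := by
    rw [← sum_aa_bb v' hv, ← sum_aa_bb w' hv, ← sum_aa_bb v' hw, ← sum_aa_bb w' hw, hb,
      ← Finset.sum_add_distrib, ← Finset.sum_add_distrib, ← Finset.sum_add_distrib]
    exact Finset.sum_congr rfl fun Q _ => by simp only [yy]; ring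
  have hsymm : ∀ s t : Fin 2 → F, quadraticChar F (dt s t) =
      quadraticChar F (-1) * quadraticChar F (dt t s) := by
    intro s t
    rw [dt_comm, ← map_mul, neg_one_mul]
  have eba : b = quadraticChar F (-1) * a := by
    rw [eb, ea, hsymm v' v, hsymm w' v, hsymm v' w, hsymm w' w]
    ring
  have e4 : 4 * SX = A - a - b + S := by
    rw [hSX, hA, ha, hb, hS, Finset.mul_sum, ← Finset.sum_sub_distrib, ← Finset.sum_sub_distrib,
      ← Finset.sum_add_distrib]
    refine Finset.sum_congr rfl fun Q _ => ?_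
    have h1 := two_xx hv hw Q.rep_nonzero
    have h2 := two_xx hv' hw' Q.rep_nonzero
    linear_combination (2 * xx v' w' Q.rep) * h1 +
      (aa v Q.rep + aa w Q.rep - yy v w Q.rep) * h2
  have e5 : 2 * SXY = a - S := by
    rw [hSXY, ha, hS, Finset.mul_sum, ← Finset.sum_sub_distrib]
    refine Finset.sum_congr rfl fun Q _ => ?_
    have h1 := two_xx hv hw Q.rep_nonzero
    linear_combination (yy v' w' Q.rep) * h1
  have e6 : 2 * SYX = b - S := by
    rw [hSYX, hb, hS, Finset.mul_sum, ← Finset.sum_sub_distrib]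
    refine Finset.sum_congr rfl fun Q _ => ?_
    have h2 := two_xx hv' hw' Q.rep_nonzero
    linear_combination (yy v w Q.rep) * h2
  have e7 : ∑ Q, fv θ v w Q * fv (dual F θ) v' w' Q =
      (SX : k) + (SXY : k) * dual F θ + (SYX : k) * θ + (S : k) * (θ * dual F θ) := by
    rw [hSX, hSXY, hSYX, hS]
    push_cast
    rw [Finset.sum_mul, Finset.sum_mul, Finset.sum_mul, ← Finset.sum_add_distrib,
      ← Finset.sum_add_distrib, ← Finset.sum_add_distrib]
    refine Finset.sum_congr rfl fun Q _ => ?_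
    simp only [fv]
    ring
  rw [e7]
  have hdich : quadraticChar F (-1 : F) = 1 ∨ quadraticChar F (-1 : F) = -1 :=
    quadraticChar_dichotomy (neg_ne_zero.2 one_ne_zero)
  rcases hdich with he | he
  · rw [dual, if_pos he]
    rw [he, one_mul] at hm eba
    have f1 : SXY = SYX := by omega
    have f2 : SX = m * S - SXY := by
      have : 4 * SX = 4 * (m * S - SXY) := by
        rw [e4, eA, hm]; linear_combination 2 * e5 - eba
      linarith
    rw [← f1, f2]
    push_cast
    linear_combination (-(S : k)) * hθ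
  · rw [dual, if_neg (by rw [he]; decide)]
    rw [he] at hm eba
    have f1 : SYX = -SXY - S := by omega
    have f2 : SX = -(m * S) := by
      have : 4 * SX = 4 * (-(m * S)) := by
        rw [e4, eA]; linear_combination (-S) * hm - eba
      linarith
    rw [f1, f2]
    push_cast
    linear_combination ((S : k)) * hθ

end MP7994d1
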