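import Mathlib

namespace MP7994d1

open scoped MonoidAlgebra

variable {k : Type} [Field k]

/-- Nonzero common eigenvectors with distinct characters are linearly independent. -/
theorem linearIndependent_of_characters {A ι W : Type} [Group A] [AddCommGroup W] [Module k W]
    (ρ : Representation k A W) (v : ι → W) (ψ : ι → A →* k) (hinj : Function.Injective ψ)
    (hv : ∀ i, v i ≠ 0) (h : ∀ i a, ρ a (v i) = ψ i a • v i) : LinearIndependent k v := by
  rw [linearIndependent_iff']
  intro s g hg i hi
  by_contra hgi
  have key : ∀ l : Module.Dual k W, l (v i) = 0 := by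
    intro l
    have h1 := (linearIndependent_monoidHom A k).comp ψ hinj
    rw [linearIndependent_iff'] at h1
    have h2 := h1 s (fun j => g j * l (v j)) (by
      funext a
      have h3 : l (ρ a (∑ j ∈ s, g j • v j)) = 0 := by rw [hg]; simp
      rw [map_sum, map_sum] at h3
      simp only [Function.comp, Finset.sum_apply, Pi.smul_apply, smul_eq_mul, Pi.zero_apply]
      rw [← h3]
      refine Finset.sum_congr rfl fun j _ => ?_
      rw [map_smul, h, map_smul, map_smul]
      simp only [smul_eq_mul]
      ring) i hi
    exact (mul_eq_zero.1 h2).resolve_left hgi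
  exact hv i ((Module.forall_dual_apply_eq_zero_iff k (v i)).1 key)

variable [IsAlgClosed k]

theorem exists_common_eigenvector {A : Type} [CommGroup A] {W : Type} [AddCommGroup W]
    [Module k W] [FiniteDimensional k W] [Nontrivial W] (ρ : Representation k A W) :
    ∃ (v : W) (ψ : A →* k), v ≠ 0 ∧ ∀ a, ρ a v = ψ a • v := by
  have hart : IsArtinian k[A] ρ.asModule := isArtinian_of_tower k inferInstance
  have hnt : Nontrivial ρ.asModule := inferInstanceAs (Nontrivial W)
  have : IsAtomic (Submodule k[A] ρ.asModule) := inferInstance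
  obtain ⟨S, hS⟩ : ∃ S : Submodule k[A] ρ.asModule, IsAtom S := by
    obtain h | h := eq_bot_or_exists_atom_le (⊤ : Submodule k[A] ρ.asModule)
    · exact absurd h top_ne_bot
    · exact ⟨h.choose, h.choose_spec.1⟩
  have hsimple : IsSimpleModule k[A] S := isSimpleModule_iff_isAtom.2 hS
  have hfd : FiniteDimensional k S := by
    have : Module.Finite k ρ.asModule := inferInstance
    exact Module.Finite.of_injective (S.subtype.restrictScalars k) S.subtype_injective
  have h1 : Module.finrank k S = 1 :=
    IsSimpleModule.finrank_eq_one_of_isMulCommutative k[A] S k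
  obtain ⟨⟨v, hvS⟩, hv0⟩ : ∃ v : S, v ≠ 0 := by
    have : Nontrivial S := IsSimpleModule.nontrivial k[A] S
    exact exists_ne 0
  obtain ⟨v, hv, h2⟩ : ∃ v : W, v ≠ 0 ∧ ∀ a : A, ∃ c : k, ρ a v = c • v := by
    refine ⟨v, fun h => hv0 (Subtype.ext h), fun a => ?_⟩
    have h3 : (MonoidAlgebra.single a (1 : k)) • v ∈ S := S.smul_mem _ hvS
    obtain ⟨c, hc⟩ := (finrank_eq_one_iff_of_nonzero' (⟨v, hvS⟩ : S) hv0).1 h1 ⟨_, h3⟩
    refine ⟨c, ?_⟩
    have h4 : c • v = MonoidAlgebra.single a (1 : k) • v := congrArg Subtype.val hc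
    rw [Representation.single_smul, one_smul] at h4
    exact h4.symm
  choose c hc using h2
  refine ⟨v, ⟨⟨c, ?_⟩, ?_⟩, hv, hc⟩
  · have h5 := hc 1
    rw [map_one] at h5
    have h6 : ((1 : k) - c 1) • v = 0 := by
      rw [sub_smul, one_smul, sub_eq_zero]; exact h5
    exact (sub_eq_zero.1 ((smul_eq_zero.1 h6).resolve_right hv)).symm
  · intro a b
    have h5 := hc (a * b)
    rw [map_mul, Module.End.mul_apply, hc b, map_smul, hc a, smul_smul] at h5
    have h6 : (c b * c a - c (a * b)) • v = 0 := by
      rw [sub_smul, sub_eq_zero]; exact h5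
    have h7 := sub_eq_zero.1 ((smul_eq_zero.1 h6).resolve_right hv)
    show c (a * b) = c a * c b
    rw [← h7, mul_comm]

/-- If the image of the additive group of `F` does not act trivially, and elements `t i` normalize
it with distinct factors `c i`, then the dimension is at least the number of the `t i`. -/
theorem card_le_finrank {F G ι V : Type} [Field F] [Fintype F] [Group G] [Fintype ι]
    [AddCommGroup V] [Module k V] [FiniteDimensional k V] (ρ : Representation k G V)
    (hF : (Fintype.card F : k) ≠ 0) (u : Multiplicative F →* G) (t : ι → G) (c : ι → F)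
    (hc : Function.Injective c)
    (hconj : ∀ i (x : F), u (Multiplicative.ofAdd x) * t i = t i * u (Multiplicative.ofAdd (c i * x)))
    (hnt : ∃ (x : Multiplicative F) (v : V), ρ (u x) v ≠ v) :
    Fintype.card ι ≤ Module.finrank k V := by
  classical
  set τ : Representation k (Multiplicative F) V := ρ.comp u with hτ
  have hτa : ∀ x v, τ x v = ρ (u x) v := fun _ _ => rfl
  set avg : V →ₗ[k] V := ∑ x : Multiplicative F, τ x with havg
  have havgτ : ∀ x v, avg (τ x v) = avg v := by
    intro x v
    simp only [havg, LinearMap.sum_apply]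
    rw [← Equiv.sum_comp (Equiv.mulRight x) (fun y => τ y v)]
    refine Finset.sum_congr rfl fun y _ => ?_
    rw [Equiv.coe_mulRight, map_mul, Module.End.mul_apply]
  have havgτ' : ∀ x v, τ x (avg v) = avg v := by
    intro x v
    simp only [havg, LinearMap.sum_apply, map_sum]
    rw [← Equiv.sum_comp (Equiv.mulLeft x) (fun y => τ y v)]
    refine Finset.sum_congr rfl fun y _ => ?_
    rw [Equiv.coe_mulLeft, map_mul, Module.End.mul_apply]
  have hstab : ∀ x, ∀ w ∈ LinearMap.ker avg, τ x w ∈ LinearMap.ker avg := by
    intro x w hw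
    rw [LinearMap.mem_ker] at hw ⊢
    rw [havgτ, hw]
  let τW : Representation k (Multiplicative F) (LinearMap.ker avg) :=
    { toFun := fun x => (τ x).restrict (hstab x)
      map_one' := by ext; simp
      map_mul' := fun x y => by ext; simp }
  obtain ⟨x, v, hxv⟩ := hnt
  have hnontriv : Nontrivial (LinearMap.ker avg) := by
    refine ⟨⟨⟨τ x v - v, ?_⟩, 0, ?_⟩⟩
    · rw [LinearMap.mem_ker, map_sub, havgτ, sub_self]
    · intro h
      exact hxv (sub_eq_zero.1 (congrArg Subtype.val h))
  obtain ⟨w, ψ, hw, hψ⟩ := exists_common_eigenvector τW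
  have hw' : (w : V) ≠ 0 := fun h => hw (by ext; simpa using h)
  have hψ' : ∀ y, ρ (u y) (w : V) = ψ y • (w : V) := by
    intro y
    exact congrArg Subtype.val (hψ y)
  have hψne : ∃ y : F, ψ (Multiplicative.ofAdd y) ≠ 1 := by
    by_contra hcon
    push Not at hcon
    have h1 : avg (w : V) = 0 := w.2
    have h2 : avg (w : V) = (Fintype.card F : k) • (w : V) := by
      simp only [havg, LinearMap.sum_apply]
      rw [Finset.sum_congr rfl (fun y _ => by
        rw [hτa, hψ' y, show ψ y = 1 from hcon (Multiplicative.toAdd y), one_smul])]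
      rw [Finset.sum_const, Finset.card_univ, Fintype.card_multiplicative, Nat.cast_smul_eq_nsmul]
    rw [h1] at h2
    exact hw' ((smul_eq_zero.1 h2.symm).resolve_left hF)
  let χ : ι → (Multiplicative F →* k) := fun i =>
    { toFun := fun y => ψ (Multiplicative.ofAdd (c i * Multiplicative.toAdd y))
      map_one' := by simp
      map_mul' := fun y z => by
        rw [toAdd_mul, mul_add, ofAdd_add, map_mul] }
  have hχinj : Function.Injective χ := by
    intro i j hij
    by_contra hne
    obtain ⟨y, hy⟩ := hψne
    have hcij : c i - c j ≠ 0 := sub_ne_zero.2 (fun h => hne (hc h))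
    have h1 := DFunLike.congr_fun hij (Multiplicative.ofAdd ((c i - c j)⁻¹ * y))
    have h2 : ψ (Multiplicative.ofAdd (c i * ((c i - c j)⁻¹ * y))) =
        ψ (Multiplicative.ofAdd (c j * ((c i - c j)⁻¹ * y))) := h1
    have h3 : c i * ((c i - c j)⁻¹ * y) = y + c j * ((c i - c j)⁻¹ * y) := by
      field_simp
      ring
    rw [h3, ofAdd_add, map_mul] at h2
    have h4 : ψ (Multiplicative.ofAdd (c j * ((c i - c j)⁻¹ * y))) ≠ 0 := by
      intro h0
      have := map_one ψ
      rw [← mul_inv_cancel (Multiplicative.ofAdd (c j * ((c i - c j)⁻¹ * y))), map_mul, h0,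
        zero_mul] at this
      exact zero_ne_one this
    exact hy (mul_right_cancel₀ h4 (by rw [h2, one_mul]))
  have hli : LinearIndependent k (fun i => ρ (t i) (w : V)) := by
    refine linearIndependent_of_characters τ _ χ hχinj ?_ ?_
    · intro i h0
      apply hw'
      have : ρ (t i)⁻¹ (ρ (t i) (w : V)) = w := by
        rw [← Module.End.mul_apply, ← map_mul, inv_mul_cancel, map_one, Module.End.one_apply]
      rw [← this, h0, map_zero]
    · intro i y
      show ρ (u y) (ρ (t i) (w : V)) = ψ (Multiplicative.ofAdd (c i * Multiplicative.toAdd y)) • _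
      rw [← Module.End.mul_apply, ← map_mul]
      have h1 := hconj i (Multiplicative.toAdd y)
      rw [ofAdd_toAdd] at h1
      rw [h1, map_mul, Module.End.mul_apply, hψ', map_smul]
  exact hli.fintype_card_le_finrank

end MP7994d1
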