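import Mathlib

/-! Paley type vectors on the projective line over a finite field of odd order. -/

namespace MP7994d1

open scoped LinearAlgebra.Projectivization MatrixGroups

variable {F : Type} [Field F] [Fintype F] [DecidableEq F]

def dt (v w : Fin 2 → F) : F := v 0 * w 1 - v 1 * w 0

def ratio (v q : Fin 2 → F) : F := if q 0 = 0 then v 1 / q 1 else v 0 / q 0

def aa (v q : Fin 2 → F) : ℤ := quadraticChar F (dt v q)

def bb (v q : Fin 2 → F) : ℤ := if dt v q = 0 then quadraticChar F (ratio v q) else 0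

omit [Fintype F] [DecidableEq F] in
theorem ne_zero_iff' {q : Fin 2 → F} : q ≠ 0 ↔ q 0 ≠ 0 ∨ q 1 ≠ 0 := by
  rw [Ne, funext_iff, Fin.forall_fin_two]
  simp only [Pi.zero_apply]
  tauto

omit [Fintype F] in
theorem eq_ratio_smul {v q : Fin 2 → F} (hq : q ≠ 0) (h : dt v q = 0) : v = ratio v q • q := by
  rw [ne_zero_iff'] at hq
  unfold dt at h
  unfold ratio
  funext i
  split_ifs with h0
  · have h1 : q 1 ≠ 0 := by tauto
    fin_cases i
    · have : v 0 * q 1 = 0 := by rw [h0] at h; simpa using h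
      have h2 : v 0 = 0 := (mul_eq_zero.1 this).resolve_right h1
      simp [h0, h2]
    · simp [h1]
  · fin_cases i
    · simp [h0]
    · simp only [Fin.mk_one, Pi.smul_apply, smul_eq_mul]
      field_simp
      linear_combination -h

omit [Fintype F] in
theorem ratio_smul {q : Fin 2 → F} (hq : q ≠ 0) (c : F) : ratio (c • q) q = c := by
  rw [ne_zero_iff'] at hq
  unfold ratio
  split_ifs with h0
  · have h1 : q 1 ≠ 0 := by tauto
    simp [h1]
  · simp [h0]

omit [Fintype F] [DecidableEq F] in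
theorem dt_smul_right (v q : Fin 2 → F) (c : F) : dt v (c • q) = c * dt v q := by
  simp [dt]; ring

omit [Fintype F] [DecidableEq F] in
theorem dt_smul_left (v q : Fin 2 → F) (c : F) : dt (c • v) q = c * dt v q := by
  simp [dt]; ring

omit [Fintype F] [DecidableEq F] in
theorem dt_comm (v q : Fin 2 → F) : dt v q = -dt q v := by simp [dt]; ring

omit [Fintype F] [DecidableEq F] in
theorem dt_self (v : Fin 2 → F) : dt v v = 0 := by simp [dt]; ring

theorem chi_sq {c : F} (hc : c ≠ 0) : quadraticChar F c * quadraticChar F c = 1 := by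
  rw [← sq]; exact quadraticChar_sq_one hc

theorem chi_inv (c : F) : quadraticChar F c⁻¹ = quadraticChar F c := by
  by_cases hc : c = 0
  · simp [hc]
  have h1 : quadraticChar F c * quadraticChar F c⁻¹ = 1 := by
    rw [← map_mul, mul_inv_cancel₀ hc, map_one]
  have h2 := chi_sq hc
  have h3 : quadraticChar F c * (quadraticChar F c⁻¹ - quadraticChar F c) = 0 := by
    rw [mul_sub, h1, h2, sub_self]
  rcases mul_eq_zero.1 h3 with h | h
  · exact absurd (quadraticChar_eq_zero_iff.1 h) hc
  · exact sub_eq_zero.1 h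

theorem aa_smul (v q : Fin 2 → F) (c : F) : aa v (c • q) = quadraticChar F c * aa v q := by
  rw [aa, aa, dt_smul_right, map_mul]

theorem bb_smul {v q : Fin 2 → F} (hq : q ≠ 0) {c : F} (hc : c ≠ 0) :
    bb v (c • q) = quadraticChar F c * bb v q := by
  unfold bb
  rw [dt_smul_right]
  by_cases h : dt v q = 0
  · rw [if_pos (by rw [h, mul_zero]), if_pos h]
    have h1 := eq_ratio_smul hq h
    have h2 : v = (ratio v q * c⁻¹) • (c • q) := by
      rw [smul_smul, mul_assoc, inv_mul_cancel₀ hc, mul_one]; exact h1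
    have h3 : ratio v (c • q) = ratio v q * c⁻¹ := by
      conv_lhs => rw [h2]
      exact ratio_smul (smul_ne_zero hc hq) _
    rw [h3, map_mul, chi_inv, mul_comm]
  · rw [if_neg (mul_ne_zero hc h), if_neg h, mul_zero]

omit [Fintype F] in
theorem ratio_ne_zero {v q : Fin 2 → F} (hv : v ≠ 0) (hq : q ≠ 0) (h : dt v q = 0) :
    ratio v q ≠ 0 := by
  intro h0
  have := eq_ratio_smul hq h
  rw [h0, zero_smul] at this
  exact hv this

theorem aa_add_bb_odd {v q : Fin 2 → F} (hv : v ≠ 0) (hq : q ≠ 0) : Odd (aa v q + bb v q) := by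
  have key : ∀ c : F, c ≠ 0 → Odd (quadraticChar F c) := by
    intro c hc
    rcases quadraticChar_dichotomy hc with h | h <;> rw [h] <;> decide
  unfold aa bb
  by_cases h : dt v q = 0
  · rw [if_pos h, h, quadraticChar_zero, zero_add]
    exact key _ (ratio_ne_zero hv hq h)
  · rw [if_neg h, add_zero]
    exact key _ h

omit [DecidableEq F] in
/-- Sums over all vectors in terms of the coordinates `dt v q`, `dt w q`. -/
theorem sum_dt {v w : Fin 2 → F} (h : dt v w ≠ 0) (f : F → F → ℤ) :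
    ∑ q : Fin 2 → F, f (dt v q) (dt w q) = ∑ x : F, ∑ y : F, f x y := by
  rw [← Fintype.sum_prod_type']
  refine Fintype.sum_bijective (fun q : Fin 2 → F => (dt v q, dt w q)) ?_ _ _ (fun _ => rfl)
  rw [Fintype.bijective_iff_injective_and_card]
  refine ⟨?_, by simp [sq]⟩
  intro q q' hqq
  simp only [Prod.mk.injEq] at hqq
  obtain ⟨h1, h2⟩ := hqq
  unfold dt at h h1 h2
  funext i
  fin_cases i
  · apply mul_left_cancel₀ h
    simp only [Fin.zero_eta]
    linear_combination (w 0) * h1 - (v 0) * h2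
  · apply mul_left_cancel₀ h
    simp only [Fin.mk_one]
    linear_combination (w 1) * h1 - (v 1) * h2

omit [Fintype F] [DecidableEq F] in
theorem exists_dt_ne_zero {v : Fin 2 → F} (hv : v ≠ 0) : ∃ w, dt v w ≠ 0 := by
  rw [ne_zero_iff'] at hv
  rcases hv with h | h
  · exact ⟨![0, 1], by simpa [dt] using h⟩
  · exact ⟨![1, 0], by simpa [dt] using h⟩

/-- Sums over the nonzero vectors and over the projective line. -/
theorem sum_proj (h : (Fin 2 → F) → ℤ) (h0 : h 0 = 0)
    (hs : ∀ (c : F) (q : Fin 2 → F), c ≠ 0 → q ≠ 0 → h (c • q) = h q) [Fintype (ℙ F (Fin 2 → F))] :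
    ∑ q : Fin 2 → F, h q = ((Fintype.card F : ℤ) - 1) * ∑ Q : ℙ F (Fin 2 → F), h Q.rep := by
  classical
  have h1 : ∑ q : Fin 2 → F, h q = ∑ q : {q : Fin 2 → F // q ≠ 0}, h q := by
    rw [← Finset.sum_subtype (Finset.univ.filter (fun q : Fin 2 → F => q ≠ 0)) (by simp) h]
    symm
    apply Finset.sum_filter_of_ne
    intro q _ hq hq0
    exact hq (by rw [hq0, h0])
  rw [h1]
  have h2 : ∑ q : {q : Fin 2 → F // q ≠ 0}, h q =
      ∑ p : ℙ F (Fin 2 → F) × Fˣ, h ((p.2 : F) • p.1.rep) := by
    symm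
    refine Fintype.sum_bijective (fun p : ℙ F (Fin 2 → F) × Fˣ =>
      (⟨(p.2 : F) • p.1.rep, smul_ne_zero p.2.ne_zero p.1.rep_nonzero⟩ :
        {q : Fin 2 → F // q ≠ 0})) ?_ _ _ (fun _ => rfl)
    constructor
    · rintro ⟨Q, c⟩ ⟨Q', c'⟩ hh
      have h3 : (c : F) • Q.rep = (c' : F) • Q'.rep := congrArg Subtype.val hh
      have h4 : Q = Q' := by
        rw [← Q.mk_rep, ← Q'.mk_rep, Projectivization.mk_eq_mk_iff']
        refine ⟨(c : F)⁻¹ * c', ?_⟩
        rw [mul_smul, ← h3, smul_smul, inv_mul_cancel₀ c.ne_zero, one_smul]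
      subst h4
      have h5 : ((c : F) - c') • Q.rep = 0 := by rw [sub_smul, h3, sub_self]
      have h6 := (smul_eq_zero.1 h5).resolve_right Q.rep_nonzero
      rw [Prod.mk.injEq]
      exact ⟨rfl, Units.ext (sub_eq_zero.1 h6)⟩
    · rintro ⟨q, hq⟩
      have h3 : Projectivization.mk F (Projectivization.mk F q hq).rep
          (Projectivization.mk F q hq).rep_nonzero = Projectivization.mk F q hq :=
        Projectivization.mk_rep _
      rw [Projectivization.mk_eq_mk_iff] at h3
      obtain ⟨c, hc⟩ := h3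
      refine ⟨(Projectivization.mk F q hq, c⁻¹), Subtype.ext ?_⟩
      show ((c⁻¹ : Fˣ) : F) • (Projectivization.mk F q hq).rep = q
      rw [← hc, Units.smul_def, smul_smul, Units.inv_mul, one_smul]
  rw [h2, Fintype.sum_prod_type]
  have h3 : ∀ Q : ℙ F (Fin 2 → F), ∑ c : Fˣ, h ((c : F) • Q.rep) =
      ((Fintype.card F : ℤ) - 1) * h Q.rep := by
    intro Q
    rw [Finset.sum_congr rfl (fun (c : Fˣ) _ => hs c Q.rep c.ne_zero Q.rep_nonzero),
      Finset.sum_const,
      Finset.card_univ, Fintype.card_units, nsmul_eq_mul, Nat.cast_sub Fintype.card_pos,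
      Nat.cast_one]
  rw [Finset.sum_congr rfl (fun Q _ => h3 Q), ← Finset.mul_sum]

end MP7994d1
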