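import Pool.Agent.Work.MP_7994d1_al.Paley

/-! Orthogonality relations. -/

namespace MP7994d1

open scoped LinearAlgebra.Projectivization MatrixGroups

variable {F : Type} [Field F] [Fintype F] [DecidableEq F]

omit [Fintype F] in
theorem eq_mk_of_dt {w : Fin 2 → F} (hw : w ≠ 0) (Q : ℙ F (Fin 2 → F)) (h : dt w Q.rep = 0) :
    Q = Projectivization.mk F w hw := by
  rw [← Q.mk_rep, Projectivization.mk_eq_mk_iff']
  have h1 := eq_ratio_smul Q.rep_nonzero h
  have h2 := ratio_ne_zero hw Q.rep_nonzero h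
  refine ⟨(ratio w Q.rep)⁻¹, ?_⟩
  conv_lhs => rw [h1]
  rw [ratio_smul Q.rep_nonzero, smul_smul, inv_mul_cancel₀ h2, one_smul]

omit [Fintype F] [DecidableEq F] in
theorem dt_mk_rep {w : Fin 2 → F} (hw : w ≠ 0) : dt w (Projectivization.mk F w hw).rep = 0 := by
  have h3 : Projectivization.mk F (Projectivization.mk F w hw).rep
      (Projectivization.mk F w hw).rep_nonzero = Projectivization.mk F w hw :=
    Projectivization.mk_rep _
  rw [Projectivization.mk_eq_mk_iff'] at h3
  obtain ⟨a, ha⟩ := h3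
  rw [← ha, dt_smul_right, dt_self, mul_zero]

theorem sum_aa_bb [Fintype (ℙ F (Fin 2 → F))] (v : Fin 2 → F) {w : Fin 2 → F} (hw : w ≠ 0) :
    ∑ Q : ℙ F (Fin 2 → F), aa v Q.rep * bb w Q.rep = quadraticChar F (dt v w) := by
  classical
  rw [Finset.sum_eq_single (Projectivization.mk F w hw)]
  · set r := (Projectivization.mk F w hw).rep with hr
    have h0 : dt w r = 0 := dt_mk_rep hw
    have hr0 : r ≠ 0 := Projectivization.rep_nonzero _
    rw [bb, if_pos h0, aa]
    conv_rhs => rw [eq_ratio_smul hr0 h0, dt_smul_right, map_mul]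
    rw [mul_comm]
  · intro Q _ hQ
    rw [bb, if_neg (fun h => hQ (eq_mk_of_dt hw Q h)), mul_zero]
  · intro h
    exact absurd (Finset.mem_univ _) h

theorem sum_bb_sq [Fintype (ℙ F (Fin 2 → F))] {w : Fin 2 → F} (hw : w ≠ 0) :
    ∑ Q : ℙ F (Fin 2 → F), bb w Q.rep * bb w Q.rep = 1 := by
  classical
  rw [Finset.sum_eq_single (Projectivization.mk F w hw)]
  · set r := (Projectivization.mk F w hw).rep with hr
    have h0 : dt w r = 0 := dt_mk_rep hw
    have hr0 : r ≠ 0 := Projectivization.rep_nonzero _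
    rw [bb, if_pos h0]
    exact chi_sq (ratio_ne_zero hw hr0 h0)
  · intro Q _ hQ
    rw [bb, if_neg (fun h => hQ (eq_mk_of_dt hw Q h)), mul_zero]
  · intro h
    exact absurd (Finset.mem_univ _) h

omit [DecidableEq F] in
theorem card_sub_one_ne_zero : ((Fintype.card F : ℤ) - 1) ≠ 0 := by
  have : 1 < Fintype.card F := Fintype.one_lt_card
  omega

theorem sum_aa_sq [Fintype (ℙ F (Fin 2 → F))] {v : Fin 2 → F} (hv : v ≠ 0) :
    ∑ Q : ℙ F (Fin 2 → F), aa v Q.rep * aa v Q.rep = Fintype.card F := by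
  have h1 := sum_proj (fun q => aa v q * aa v q) (by simp [aa, dt])
    (fun c q hc hq => by
      show aa v (c • q) * aa v (c • q) = aa v q * aa v q
      rw [aa_smul, mul_mul_mul_comm, chi_sq hc, one_mul])
  obtain ⟨w, hw⟩ := exists_dt_ne_zero hv
  have h2 : ∑ q : Fin 2 → F, aa v q * aa v q =
      Fintype.card F * ((Fintype.card F : ℤ) - 1) := by
    have h3 := sum_dt hw (fun x _ => quadraticChar F x * quadraticChar F x)
    have h4 : ∑ q : Fin 2 → F, aa v q * aa v q =
      ∑ q : Fin 2 → F, (fun x _ => quadraticChar F x * quadraticChar F x) (dt v q) (dt w q) := rfl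
    rw [h4, h3]
    simp only [Finset.sum_const, Finset.card_univ, nsmul_eq_mul]
    rw [← Finset.mul_sum]
    congr 1
    have h5 : ∀ x : F, quadraticChar F x * quadraticChar F x = if x = 0 then 0 else 1 := by
      intro x
      split_ifs with hx
      · simp [hx]
      · exact chi_sq hx
    rw [Finset.sum_congr rfl (fun x _ => h5 x), Finset.sum_ite, Finset.sum_const_zero, zero_add,
      Finset.sum_const, nsmul_eq_mul, mul_one, Finset.filter_not, Finset.card_sdiff_of_subset
      (Finset.filter_subset _ _), Finset.filter_eq', if_pos (Finset.mem_univ _),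
      Finset.card_univ, Finset.card_singleton, Nat.cast_sub Fintype.card_pos, Nat.cast_one]
  rw [h2] at h1
  apply mul_left_cancel₀ (card_sub_one_ne_zero (F := F))
  rw [← h1, mul_comm]

theorem sum_aa_aa [Fintype (ℙ F (Fin 2 → F))] (hF : ringChar F ≠ 2) {v w : Fin 2 → F}
    (hv : v ≠ 0) (hw : w ≠ 0) :
    ∑ Q : ℙ F (Fin 2 → F), aa v Q.rep * aa w Q.rep =
      Fintype.card F * ∑ Q : ℙ F (Fin 2 → F), bb v Q.rep * bb w Q.rep := by
  by_cases h : dt v w = 0
  · have hwv : dt w v = 0 := by rw [dt_comm, h, neg_zero]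
    have h1 := eq_ratio_smul hv hwv
    set c := ratio w v with hc
    have hbb : ∀ q : Fin 2 → F, q ≠ 0 → bb w q = quadraticChar F c * bb v q := by
      intro q hq
      have hc0 : c ≠ 0 := ratio_ne_zero hw hv hwv
      rw [h1]
      unfold bb
      rw [dt_smul_left]
      by_cases h2 : dt v q = 0
      · rw [if_pos (by rw [h2, mul_zero]), if_pos h2]
        have h3 : c • v = (c * ratio v q) • q := by
          rw [mul_smul, ← eq_ratio_smul hq h2]
        rw [h3, ratio_smul hq, map_mul]
      · rw [if_neg (mul_ne_zero hc0 h2), if_neg h2, mul_zero]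
    have haa : ∀ q : Fin 2 → F, aa w q = quadraticChar F c * aa v q := by
      intro q
      rw [h1, aa, aa, dt_smul_left, map_mul]
    have e1 : ∑ Q : ℙ F (Fin 2 → F), aa v Q.rep * aa w Q.rep =
        quadraticChar F c * ∑ Q : ℙ F (Fin 2 → F), aa v Q.rep * aa v Q.rep := by
      rw [Finset.mul_sum]
      refine Finset.sum_congr rfl fun Q _ => ?_
      rw [haa]; ring
    have e2 : ∑ Q : ℙ F (Fin 2 → F), bb v Q.rep * bb w Q.rep =
        quadraticChar F c * ∑ Q : ℙ F (Fin 2 → F), bb v Q.rep * bb v Q.rep := by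
      rw [Finset.mul_sum]
      refine Finset.sum_congr rfl fun Q _ => ?_
      rw [hbb _ Q.rep_nonzero]; ring
    rw [e1, e2, sum_aa_sq hv, sum_bb_sq hv]
    ring
  · have e2 : ∑ Q : ℙ F (Fin 2 → F), bb v Q.rep * bb w Q.rep = 0 := by
      refine Finset.sum_eq_zero fun Q _ => ?_
      unfold bb
      split_ifs with h2 h3
      · exfalso
        apply h
        rw [eq_ratio_smul Q.rep_nonzero h2, dt_smul_left, dt_comm, h3, neg_zero, mul_zero]
      · rw [mul_zero]
      · rw [zero_mul]
      · rw [zero_mul]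
    rw [e2, mul_zero]
    have h1 := sum_proj (fun q => aa v q * aa w q) (by simp [aa, dt])
      (fun c q hc hq => by
        show aa v (c • q) * aa w (c • q) = aa v q * aa w q
        rw [aa_smul, aa_smul, mul_mul_mul_comm, chi_sq hc, one_mul])
    have h3 := sum_dt h (fun x y => quadraticChar F x * quadraticChar F y)
    have h4 : ∑ q : Fin 2 → F, aa v q * aa w q =
      ∑ q : Fin 2 → F, (fun x y => quadraticChar F x * quadraticChar F y) (dt v q) (dt w q) := rfl
    rw [h4, h3] at h1
    have h5 : ∑ x : F, ∑ y : F, (quadraticChar F x * quadraticChar F y) = 0 := by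
      simp_rw [← Finset.mul_sum]
      rw [← Finset.sum_mul, quadraticChar_sum_zero hF, zero_mul]
    rw [h5] at h1
    exact (mul_eq_zero.1 h1.symm).resolve_left card_sub_one_ne_zero

end MP7994d1
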