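import Pool.Agent.Work.MP_7994d1_al.Defs
import Pool.Agent.Work.MP_7994d1_al.PGL
import Pool.Agent.Work.MP_7994d1_al.Code

/-! A composition factor of small degree of the permutation module of `SL₂(q)`. -/

namespace MP7994d1

open scoped MonoidAlgebra LinearAlgebra.Projectivization MatrixGroups

section Abstract

variable {k : Type} [Field k] {F G : Type} [Field F] [Fintype F] [Group G]

theorem exists_simple_subquotient (hF : (Fintype.card F : k) ≠ 0) (u : Multiplicative F →* G)
    (M : Type) [AddCommGroup M] [Module k M] [Module k[G] M] [IsScalarTower k k[G] M]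
    [FiniteDimensional k M] (N : Submodule k[G] M)
    (hN : ∃ x, ∃ v ∈ N, MonoidAlgebra.single (u x) (1 : k) • v ≠ v) :
    ∃ S : Submodule k[G] M, S ≤ N ∧ ∃ T : Submodule k[G] S, IsCoatom T ∧
      ∃ x, ∃ z : S ⧸ T, MonoidAlgebra.single (u x) (1 : k) • z ≠ z := by
  have hart : IsArtinian k[G] M := isArtinian_of_tower k inferInstance
  have hnoe : IsNoetherian k[G] M := isNoetherian_of_tower k inferInstance
  obtain ⟨S, ⟨hSN, hS⟩, hmin⟩ := IsArtinian.set_has_minimal
    {S : Submodule k[G] M | S ≤ N ∧ ∃ x, ∃ v ∈ S, MonoidAlgebra.single (u x) (1 : k) • v ≠ v}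
    ⟨N, le_rfl, hN⟩
  refine ⟨S, hSN, ?_⟩
  obtain ⟨x, v, hvS, hxv⟩ := hS
  have hnt : (⊥ : Submodule k[G] S) ≠ ⊤ := by
    intro h
    have h1 : (⟨v, hvS⟩ : S) ∈ (⊥ : Submodule k[G] S) := by rw [h]; trivial
    have h2 : v = 0 := congrArg Subtype.val ((Submodule.mem_bot _).1 h1)
    exact hxv (by rw [h2, smul_zero])
  obtain h | ⟨T, hT, -⟩ := eq_top_or_exists_le_coatom (⊥ : Submodule k[G] S)
  · exact absurd h hnt
  refine ⟨T, hT, ?_⟩
  by_contra hcon
  push Not at hcon
  have hfix : ∀ x, ∀ w ∈ T.map S.subtype, MonoidAlgebra.single (u x) (1 : k) • w = w := by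
    by_contra hne
    push Not at hne
    have hle : T.map S.subtype ≤ S := Submodule.map_subtype_le _ _
    refine hmin (T.map S.subtype) ⟨hle.trans hSN, hne⟩ (lt_of_le_of_ne hle ?_)
    intro heq
    apply hT.1
    rw [eq_top_iff]
    intro s _
    have hs : (s : M) ∈ T.map S.subtype := by rw [heq]; exact s.2
    obtain ⟨t, ht, hts⟩ := hs
    rwa [← Subtype.ext hts]
  set e : k[G] := MonoidAlgebra.single (u x) (1 : k) with he
  set w : M := e • v - v with hw
  have hwT : w ∈ T.map S.subtype := by
    have h1 := hcon x (Submodule.Quotient.mk (⟨v, hvS⟩ : S))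
    rw [← Submodule.Quotient.mk_smul, Submodule.Quotient.eq] at h1
    exact ⟨_, h1, rfl⟩
  have hew : e • w = w := hfix x w hwT
  have hpow : ∀ n : ℕ, e ^ n • v = v + n • w := by
    intro n
    induction n with
    | zero => simp
    | succ n ih =>
      rw [pow_succ', mul_smul, ih, smul_add, smul_comm e n w, hew, succ_nsmul']
      rw [hw]; abel
  have h1 := hpow (Fintype.card F)
  have h2 : e ^ Fintype.card F = 1 := by
    rw [he, MonoidAlgebra.single_pow, ← map_pow]
    have : x ^ Fintype.card F = 1 := by
      have h3 : Fintype.card F = Fintype.card (Multiplicative F) := by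
        rw [Fintype.card_multiplicative]
      rw [h3]; exact pow_card_eq_one
    rw [this, map_one, one_pow]
    rfl
  rw [h2, one_smul] at h1
  have h3 : (Fintype.card F : k) • w = 0 := by
    rw [Nat.cast_smul_eq_nsmul]
    exact (left_eq_add.1 h1)
  have h4 : w = 0 := (smul_eq_zero.1 h3).resolve_left hF
  exact hxv (sub_eq_zero.1 h4)

theorem isIrreducible_ofModule (Q : Type) [AddCommGroup Q] [Module k Q] [Module k[G] Q]
    [IsScalarTower k k[G] Q] [IsSimpleModule k[G] Q] :
    Representation.IsIrreducible (Representation.ofModule' Q : Representation k G Q) := by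
  have hnt : Nontrivial Q := IsSimpleModule.nontrivial k[G] Q
  have hτ : ∀ (h : G) (z : Q), (Representation.ofModule' Q : Representation k G Q) h z =
    MonoidAlgebra.single h (1 : k) • z := fun _ _ => rfl
  have hne : (⊥ : Submodule k Q) ≠ ⊤ := bot_ne_top
  refine
    { exists_pair_ne := ⟨⊥, ⊤, fun h => hne (congrArg Subrepresentation.toSubmodule h)⟩
      eq_bot_or_eq_top := fun W => ?_ }
  let S : Submodule k[G] Q :=
    { W.toSubmodule with
      smul_mem' := by
        intro r m hm
        induction r using MonoidAlgebra.induction_linear with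
        | zero => rw [zero_smul]; exact Submodule.zero_mem _
        | add x y hx hy => rw [add_smul]; exact Submodule.add_mem _ hx hy
        | single g a =>
          have h3 : MonoidAlgebra.single g a = a • MonoidAlgebra.single g (1 : k) := by simp
          rw [h3, smul_assoc]
          refine Submodule.smul_mem _ _ ?_
          have h4 := W.apply_mem_toSubmodule g hm
          rw [hτ] at h4
          exact h4 }
  obtain hS | hS := eq_bot_or_eq_top S
  · left
    apply Subrepresentation.toSubmodule_injective
    show W.toSubmodule = ⊥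
    rw [eq_bot_iff]
    intro w hw
    have h5 : w ∈ S := hw
    rw [hS, Submodule.mem_bot] at h5
    rw [Submodule.mem_bot]
    exact h5
  · right
    apply Subrepresentation.toSubmodule_injective
    show W.toSubmodule = ⊤
    rw [eq_top_iff]
    intro w _
    have h5 : w ∈ S := by rw [hS]; trivial
    exact h5

/-- A simple module as an irreducible representation. -/
noncomputable def irrepOf (Q : Type) [AddCommGroup Q] [Module k Q] [Module k[G] Q]
    [IsScalarTower k k[G] Q] [FiniteDimensional k Q] [IsSimpleModule k[G] Q] : Irrep k G where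
  V := Q
  grp := inferInstance
  mod := inferInstance
  ρ := Representation.ofModule' Q
  fin := inferInstance
  irr := isIrreducible_ofModule Q

theorem exists_simple_factor [IsAlgClosed k] (hF : (Fintype.card F : k) ≠ 0)
    (u : Multiplicative F →* G) (t : Bool → G) (c : Bool → F) (hc : Function.Injective c)
    (hconj : ∀ i (x : F), u (Multiplicative.ofAdd x) * t i =
      t i * u (Multiplicative.ofAdd (c i * x)))
    (M : Type) [AddCommGroup M] [Module k M] [Module k[G] M] [IsScalarTower k k[G] M]
    [FiniteDimensional k M] (N : Submodule k[G] M)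
    (hN : ∃ x, ∃ v ∈ N, MonoidAlgebra.single (u x) (1 : k) • v ≠ v) :
    ∃ α : Irrep k G, 1 < Module.finrank k α.V ∧ Module.finrank k α.V ≤ Module.finrank k N ∧
      ∃ (W : Submodule k M) (f : M →ₗ[k] α.V),
        (∀ h, ∀ w ∈ W, MonoidAlgebra.single h (1 : k) • w ∈ W ∧
          f (MonoidAlgebra.single h (1 : k) • w) = α.ρ h (f w)) ∧ ∀ y, ∃ w ∈ W, f w = y := by
  obtain ⟨S, hS, T, hT, hnt⟩ := exists_simple_subquotient hF u M N hN
  have hfinS : Module.Finite k S :=
    Module.Finite.of_injective (S.subtype.restrictScalars k) S.subtype_injective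
  have hfinN : Module.Finite k N :=
    Module.Finite.of_injective (N.subtype.restrictScalars k) N.subtype_injective
  have hfinQ : Module.Finite k (S ⧸ T) :=
    Module.Finite.of_surjective (T.mkQ.restrictScalars k) T.mkQ_surjective
  have hsimple : IsSimpleModule k[G] (S ⧸ T) := isSimpleModule_iff_isCoatom.2 hT
  have hup : Module.finrank k (S ⧸ T) ≤ Module.finrank k N := by
    have h1 : Module.finrank k (S ⧸ T) ≤ Module.finrank k S :=
      LinearMap.finrank_le_finrank_of_surjective (f := T.mkQ.restrictScalars k) T.mkQ_surjective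
    have h2 : Module.finrank k S ≤ Module.finrank k N :=
      LinearMap.finrank_le_finrank_of_injective
        (f := (Submodule.inclusion hS).restrictScalars k) (Submodule.inclusion_injective hS)
    omega
  have hlow : 1 < Module.finrank k (S ⧸ T) := by
    have h1 := card_le_finrank (ι := Bool) (Representation.ofModule' (S ⧸ T) : Representation k G _)
      hF u t c hc hconj (by
        obtain ⟨x, z, hz⟩ := hnt
        exact ⟨x, z, hz⟩)
    rw [Fintype.card_bool] at h1
    exact h1
  obtain ⟨f, hf⟩ := LinearMap.exists_extend (p := S.restrictScalars k)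
    (T.mkQ.restrictScalars k)
  have hf' : ∀ (w : M) (hw : w ∈ S), f w = Submodule.Quotient.mk (⟨w, hw⟩ : S) := by
    intro w hw
    exact LinearMap.congr_fun hf ⟨w, hw⟩
  refine ⟨irrepOf (k := k) (G := G) (S ⧸ T), hlow, hup, S.restrictScalars k, f, ?_, ?_⟩
  · intro h w hw
    have hw' : w ∈ S := hw
    have h1 : MonoidAlgebra.single h (1 : k) • w ∈ S := S.smul_mem _ hw'
    refine ⟨h1, ?_⟩
    refine (hf' _ h1).trans ?_
    refine Eq.trans ?_ (congrArg ((Representation.ofModule' (S ⧸ T) : Representation k G _) h)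
      (hf' _ hw').symm)
    rfl
  · intro y
    obtain ⟨⟨w, hw⟩, hwy⟩ := Submodule.Quotient.mk_surjective T y
    exact ⟨w, hw, (hf' w hw).trans hwy⟩

end Abstract

variable {k : Type} [Field k] {F : Type} [Field F] [Fintype F] [DecidableEq F]

/-- The code spanned by the vectors `fv θ v w`. -/
noncomputable def code (θ : k) : Submodule k (ℙ F (Fin 2 → F) → k) :=
  Submodule.span k {f | ∃ v w : Fin 2 → F, v ≠ 0 ∧ w ≠ 0 ∧ f = fv θ v w}

theorem code_orth [Fintype (ℙ F (Fin 2 → F))] (hF : ringChar F ≠ 2) {m : ℤ}
    (hm : quadraticChar F (-1) * (Fintype.card F : ℤ) = 1 + 4 * m) {θ : k}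
    (hθ : θ * θ = θ + m) : ∀ f ∈ (code θ : Submodule k (ℙ F (Fin 2 → F) → k)),
      ∀ g ∈ (code (dual F θ) : Submodule k (ℙ F (Fin 2 → F) → k)), ∑ Q, f Q * g Q = 0 := by
  intro f hf g hg
  induction hf using Submodule.span_induction with
  | mem f hf =>
    obtain ⟨v, w, hv, hw, rfl⟩ := hf
    induction hg using Submodule.span_induction with
    | mem g hg =>
      obtain ⟨v', w', hv', hw', rfl⟩ := hg
      exact fv_orth hF hm hθ hv hw hv' hw'
    | zero => simp
    | add g g' _ _ h1 h2 =>
      simp only [Pi.add_apply, mul_add, Finset.sum_add_distrib, h1, h2, add_zero]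
    | smul c g _ h1 =>
      simp only [Pi.smul_apply, smul_eq_mul]
      rw [Finset.sum_congr rfl (fun Q _ => mul_left_comm _ c _), ← Finset.mul_sum, h1, mul_zero]
  | zero => simp
  | add f f' _ _ h1 h2 =>
    simp only [Pi.add_apply, add_mul, Finset.sum_add_distrib, h1, h2, add_zero]
  | smul c f _ h1 =>
    simp only [Pi.smul_apply, smul_eq_mul]
    rw [Finset.sum_congr rfl (fun Q _ => mul_assoc c _ _), ← Finset.mul_sum, h1, mul_zero]

theorem finrank_add_le {X : Type} [Fintype X] (A B : Submodule k (X → k))
    (h : ∀ f ∈ A, ∀ g ∈ B, ∑ x, f x * g x = 0) :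
    Module.finrank k A + Module.finrank k B ≤ Fintype.card X := by
  classical
  let Ψ : (X → k) →ₗ[k] Module.Dual k (X → k) := (Pi.basisFun k X).toDual
  have hΨ : Function.Injective Ψ := (Pi.basisFun k X).toDual_injective
  have hΨa : ∀ g f : X → k, Ψ g f = ∑ x, g x * f x := by
    intro g f
    simp only [Ψ]
    conv_lhs => rw [← (Pi.basisFun k X).sum_repr f, map_sum]
    refine Finset.sum_congr rfl fun x _ => ?_
    rw [map_smul, Module.Basis.toDual_apply_left]
    simp [mul_comm]
  have h1 : B.map Ψ ≤ A.dualAnnihilator := by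
    rintro _ ⟨g, hg, rfl⟩
    rw [Submodule.mem_dualAnnihilator]
    intro f hf
    rw [hΨa, ← h f hf g hg]
    exact Finset.sum_congr rfl fun x _ => mul_comm _ _
  have h2 : Module.finrank k (B.map Ψ) = Module.finrank k B :=
    (Submodule.equivMapOfInjective Ψ hΨ B).finrank_eq.symm
  have h3 := Submodule.finrank_mono h1
  have h4 := Subspace.finrank_add_finrank_dualAnnihilator_eq A
  rw [Module.finrank_fintype_fun_eq_card] at h4
  omega

end MP7994d1
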